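import Pool.Agent.H25.Diam

set_option autoImplicit false

namespace Pool.Agent.Results.MP_1efffb_co.Cex

open Pool.Agent.H25.Diam

/-- For `r = 4` there are normalized Hadamard matrices of arbitrarily large order whose columns,
after deleting the first four rows, are not diametrically maximal. -/
theorem result : ∃ r : ℕ, ∀ n0 : ℕ, ∃ m : ℕ, n0 ≤ r + m ∧
    ∃ H : Matrix (Fin (r + m)) (Fin (r + m)) ℤ,
      IsHadamard H ∧ Normalized H ∧ ¬ DiamMax (cols r m H) :=
  ⟨4, main⟩

end Pool.Agent.Results.MP_1efffb_co.Cex
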